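import Mathlib
import Pool.Agent.Lib.MP_2a83f9_an.J.Cond
import Pool.Agent.Lib.MP_2a83f9_an.J.General
import Pool.Agent.Lib.MP_2a83f9_an.J.Struct

set_option autoImplicit false

namespace Pool.Agent.Results.MP_2a83f9_an.AFCStar

open Filter Topology Pool.Agent.Lib.MP_2a83f9_an.H.J

universe u

/-- Every nonzero unital AF C*-algebra `B` is a Calkin algebra: if `B` is the closure of an
increasing union of finite-dimensional star subalgebras, then there are a separable
infinite-dimensional complex Banach space `Y` and a continuous algebra homomorphism from the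
bounded operators on `Y` onto `B` whose kernel is the ideal of compact operators. -/
theorem result (B : Type u) [CStarAlgebra B] [Nontrivial B] (A : ℕ → NonUnitalStarSubalgebra ℂ B)
    (hmono : Monotone A) (hfin : ∀ n, FiniteDimensional ℂ (A n))
    (hdense : Dense (⋃ n, (A n : Set B))) :
    ∃ (Y : Type u) (_ : NormedAddCommGroup Y) (_ : NormedSpace ℂ Y) (_ : CompleteSpace Y),
      TopologicalSpace.SeparableSpace Y ∧ ¬ FiniteDimensional ℂ Y ∧
        ∃ Φ : (Y →L[ℂ] Y) →ₐ[ℂ] B, Continuous Φ ∧ Function.Surjective Φ ∧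
          ∀ T, Φ T = 0 ↔ IsCompactOperator T := by
  let S : ℕ → StarSubalgebra ℂ B := fun n => StarAlgebra.adjoin ℂ (A n : Set B)
  have hS : ∀ n, FiniteDimensional ℂ (S n).toSubalgebra.toSubmodule := fun n => by
    have : FiniteDimensional ℂ (A n).toSubmodule := hfin n
    rw [StarAlgebra.adjoin_nonUnitalStarSubalgebra_eq_span]
    infer_instance
  have ex : ∀ n, ∃ E : B →L[ℂ] B, (∀ x, ‖E x‖ ≤ ‖x‖) ∧ (∀ x, E x ∈ S n) ∧
      (∀ x, ∀ y ∈ S n, E (x * y) = E x * y) ∧ E 1 = 1 := fun n => by
    have := hS n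
    have : IsClosed (S n : Set B) := (S n).toSubalgebra.toSubmodule.closed_of_finiteDimensional
    have : FiniteDimensional ℂ (S n) := hS n
    obtain ⟨k, d, ρ, hρ⟩ := exists_matrix_hom (S n)
    have h := exists_exp ((S n).subtype.comp ρ)
    rwa [StarAlgHom.coe_comp, hρ.range_comp, show Set.range (S n).subtype = S n from
      Subtype.range_coe] at h
  choose E E1 E2 E3 E4 using ex
  have E5 : ∀ n, ∀ y ∈ S n, E n y = y := fun n y hy => by
    simpa [E4] using E3 n 1 y hy
  have hm : Monotone S := fun n m h => StarAlgebra.adjoin_mono (hmono h)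
  refine General.result B E (fun n => ?_) (fun n m x h => E5 m _ (hm h (E2 n x)))
    (fun n x y => E3 n x _ (E2 n y)) fun x => Metric.tendsto_atTop.2 fun ε hε => ?_
  · have := hS n
    exact Submodule.finiteDimensional_of_le (S₂ := (S n).toSubalgebra.toSubmodule) (by
      rintro _ ⟨x, rfl⟩
      exact E2 n x)
  · obtain ⟨y, hy, h⟩ := Metric.mem_closure_iff.1 (hdense x) _ (half_pos hε)
    obtain ⟨N, hN⟩ := Set.mem_iUnion.1 hy
    refine ⟨N, fun n hn => ?_⟩
    have h1 := E1 n (x - y)
    rw [map_sub, E5 n y (hm hn (StarAlgebra.subset_adjoin ℂ _ hN)), ← dist_eq_norm,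
      ← dist_eq_norm] at h1
    linarith [dist_triangle_right (E n x) x y]

end Pool.Agent.Results.MP_2a83f9_an.AFCStar
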