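import Mathlib
import Pool.Agent.Lib.MP_2a83f9_an.Assemble

set_option autoImplicit false

namespace Pool.Agent.Results.MP_2a83f9_an.CalkinAlgebra

open Pool.Agent.Lib.MP_2a83f9_an

universe u

/-- For every complex Banach space `X` with a shrinking Schauder basis there is an
infinite-dimensional complex Banach space `Y` whose Calkin algebra is isomorphic, as a Banach
algebra, to the unitization of the algebra of compact operators on `X`. -/
theorem result (X : Type u) [NormedAddCommGroup X] [NormedSpace ℂ X] [CompleteSpace X]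
    (b : SchauderBasis ℂ X) (hb : Shrinking b) :
    ∃ (Y : Type u) (_ : NormedAddCommGroup Y) (_ : NormedSpace ℂ Y) (_ : CompleteSpace Y),
      ¬ FiniteDimensional ℂ Y ∧ CalkinIsoUnitization Y X := by
  obtain ⟨Y, i₁, i₂, i₃, h₁, h₂⟩ := calkin_main b hb
  exact ⟨Y, i₁, i₂, i₃, h₁, h₂.iso⟩

end Pool.Agent.Results.MP_2a83f9_an.CalkinAlgebra
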