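import Mathlib
import Pool.Agent.Lib.MP_2a83f9_an.H.FinDim

set_option autoImplicit false

namespace Pool.Agent.Results.MP_2a83f9_an.FiniteDimAlgebras

open Pool.Agent.Lib.MP_2a83f9_an.H

universe u

/-- Every nonzero finite-dimensional unital complex algebra `A` is a Calkin algebra: there are a
separable infinite-dimensional complex Banach space `Y` and an algebra homomorphism from the
bounded operators on `Y` onto `A` whose kernel is the ideal of compact operators. -/
theorem result (A : Type u) [Ring A] [Algebra ℂ A] [FiniteDimensional ℂ A] [Nontrivial A] :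
    ∃ (Y : Type) (_ : NormedAddCommGroup Y) (_ : NormedSpace ℂ Y) (_ : CompleteSpace Y),
      TopologicalSpace.SeparableSpace Y ∧ ¬ FiniteDimensional ℂ Y ∧
        ∃ Φ : (Y →L[ℂ] Y) →ₐ[ℂ] A, Function.Surjective Φ ∧
          ∀ T, Φ T = 0 ↔ IsCompactOperator T := by
  let ψ : A →ₐ[ℂ] ((Fin (Module.finrank ℂ A) → ℂ) →L[ℂ] (Fin (Module.finrank ℂ A) → ℂ)) :=
    (Module.End.toContinuousLinearMap (𝕜 := ℂ) _).toAlgHom.comp
      (((Module.finBasis ℂ A).equivFun.conjAlgEquiv ℂ).toAlgHom.comp (Algebra.lmul ℂ A))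
  have hψ : Function.Injective ψ := (Module.End.toContinuousLinearMap (𝕜 := ℂ) _).injective.comp
    (((Module.finBasis ℂ A).equivFun.conjAlgEquiv ℂ).injective.comp Algebra.lmul_injective)
  let e := AlgEquiv.ofInjective ψ hψ
  have : FiniteDimensional ℂ ψ.range := Module.Finite.equiv e.toLinearEquiv
  have := e.injective.nontrivial
  obtain ⟨Y, i₁, i₂, i₃, h₁, h₂, Φ, h₃, h₄⟩ := calkin_findim ψ.range
  exact ⟨Y, i₁, i₂, i₃, h₁, h₂, e.symm.toAlgHom.comp Φ, e.symm.surjective.comp h₃,
    fun T => (map_eq_zero_iff e.symm e.symm.injective).trans (h₄ T)⟩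

end Pool.Agent.Results.MP_2a83f9_an.FiniteDimAlgebras
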