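import Mathlib
import Pool.Agent.Lib.MP_2a83f9_an.J.General
import Pool.Agent.FS.GroupCalkin.Conv
import Pool.Agent.FS.GroupCalkin.Defs

set_option autoImplicit false

namespace Pool.Agent.Results.MP_2a83f9_an.GroupAlgebras

open Filter Topology Pool.Agent.Lib.MP_2a83f9_an.H.J Pool.Agent.FS.GroupCalkin

universe u

/-- Twisted group algebras of countable locally finite groups are Calkin algebras: for a normalized
2-cocycle `c` bounded by one, there are a separable infinite-dimensional complex Banach space `Y`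
and a linear map from the bounded operators on `Y` onto the absolutely summable functions on `G`,
bounded for the sum of the moduli, whose kernel is the ideal of compact operators and which turns
products into `c`-twisted convolutions. -/
theorem result (G : Type u) [Group G] [Countable G]
    (hG : ∀ s : Finset G, Finite (Subgroup.closure (s : Set G)))
    (c : G → G → ℂ) (hc : ∀ g h, ‖c g h‖ ≤ 1) (hl : ∀ g, c 1 g = 1) (hr : ∀ g, c g 1 = 1)
    (hco : ∀ g h k, c g h * c (g * h) k = c h k * c g (h * k)) :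
    ∃ (Y : Type u) (_ : NormedAddCommGroup Y) (_ : NormedSpace ℂ Y) (_ : CompleteSpace Y),
      TopologicalSpace.SeparableSpace Y ∧ ¬ FiniteDimensional ℂ Y ∧
        QuotIsoL1 c {T : Y →L[ℂ] Y | IsCompactOperator T} := by
  classical
  obtain ⟨Λ, hΛ⟩ := exists_rep c hc
  let B : Subalgebra ℂ (L1 G →L[ℂ] L1 G) :=
    { carrier := Set.range Λ
      mul_mem' := by
        rintro _ _ ⟨a, rfl⟩ ⟨b, rfl⟩
        exact ⟨_, (rep_mul hΛ hco a b).symm⟩
      add_mem' := by
        rintro _ _ ⟨a, rfl⟩ ⟨b, rfl⟩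
        exact ⟨_, map_add Λ a b⟩
      algebraMap_mem' := fun r => ⟨r • dl 1, by
        rw [map_smul, rep_unit hΛ hl, Algebra.algebraMap_eq_smul_one]⟩ }
  have hcl : IsClosed (B : Set (L1 G →L[ℂ] L1 G)) :=
    (Λ.antilipschitz_of_bound (K := 1) fun a => by
      have h := (Λ a).le_opNorm (dl 1)
      rw [rep_one hΛ hr, norm_dl, mul_one] at h
      simpa using h).isClosed_range Λ.uniformContinuous
  have : CompleteSpace B := hcl.completeSpace_coe
  let ev : B →L[ℂ] L1 G := (ContinuousLinearMap.apply ℂ (L1 G) (dl 1)).comp B.toSubmodule.subtypeL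
  let inc : L1 G →L[ℂ] B := Λ.codRestrict B.toSubmodule fun a => ⟨a, rfl⟩
  have e1 : ∀ a, ev (inc a) = a := rep_one hΛ hr
  have e2 : ∀ x, inc (ev x) = x := by
    rintro ⟨_, a, rfl⟩
    exact congrArg inc (e1 a)
  have e3 : ∀ a b, inc a * inc b = inc (Λ a b) := fun a b => Subtype.ext (rep_mul hΛ hco a b)
  have : Nontrivial B := ⟨inc (dl 1), inc 0, fun h => by
    have h1 := congrArg (fun x => ‖ev x‖) h
    simp only [e1, norm_dl, norm_zero] at h1
    exact one_ne_zero h1⟩
  obtain ⟨e, he⟩ := exists_surjective_nat G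
  let H : ℕ → Subgroup G := fun n => Subgroup.closure (((Finset.range n).image e : Finset G) : Set G)
  have hH : Monotone H := fun n m h => Subgroup.closure_mono
    (Finset.coe_subset.2 (Finset.image_subset_image (Finset.range_mono h)))
  choose R R1 R2 using fun n => exists_res (H n)
  obtain ⟨Y, i₁, i₂, i₃, h₁, h₂, Φ, h₃, h₄, h₅⟩ := General.result B
    (fun n => inc.comp ((R n).comp ev)) (fun n => by
      have h1 : (H n : Set G).Finite := Set.finite_coe_iff.1 (hG _)
      have := FiniteDimensional.span_of_finite ℂ (h1.image dl)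
      refine Submodule.finiteDimensional_of_le
        (S₂ := (Submodule.span ℂ (dl '' (H n : Set G))).map inc.toLinearMap) ?_
      rintro _ ⟨x, rfl⟩
      exact ⟨_, res_span h1 (R2 n) (ev x), rfl⟩)
    (fun n m x h => by
      change inc (R m (ev (inc (R n (ev x))))) = inc (R n (ev x))
      rw [e1, res_nest (hH h) (R2 n) (R2 m)])
    (fun n x y => by
      change inc (R n (ev (x * inc (R n (ev y))))) = inc (R n (ev x)) * inc (R n (ev y))
      rw [e3, ← res_mod hΛ (R2 n), ← e1 (Λ (ev x) (R n (ev y))), ← e3, e2])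
    fun x => by
      have h1 := (inc.continuous.tendsto _).comp (res_lim (H := H) (fun g => by
        obtain ⟨i, rfl⟩ := he g
        exact (eventually_gt_atTop i).mono fun n hn => Subgroup.subset_closure
          (Finset.mem_coe.2 (Finset.mem_image_of_mem e (Finset.mem_range.2 hn)))) R1 R2 (ev x))
      rwa [e2] at h1
  let Ψ : (Y →L[ℂ] Y) →L[ℂ] L1 G := ev.comp ⟨Φ.toLinearMap, h₃⟩
  refine ⟨Y, i₁, i₂, i₃, h₁, h₂, LinearMap.pi fun g =>
    (lp.evalₗ (fun _ : G => ℂ) 1 g).comp Ψ.toLinearMap, fun a => ⟨?_, fun h => ?_⟩,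
    ⟨‖Ψ‖, fun T => (hasSum_norm1 (Ψ T)).tsum_eq.trans_le (Ψ.le_opNorm T)⟩, fun T => ?_,
    fun S T g => ?_⟩
  · rintro ⟨T, rfl⟩
    exact (hasSum_norm1 (Ψ T)).summable
  · obtain ⟨T, hT⟩ := h₄ (inc ⟨a, memℓp_gen (by simpa using h)⟩)
    refine ⟨T, funext fun g => ?_⟩
    change ev (Φ T) g = a g
    rw [hT, e1]
  · refine Iff.trans ⟨fun h => ?_, fun h => funext fun g => ?_⟩ (h₅ T)
    · rw [← e2 (Φ T), show ev (Φ T) = 0 from Subtype.ext h, map_zero]
    · change ev (Φ T) g = 0
      rw [h, map_zero]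
      rfl
  · change ev (Φ (S * T)) g = ∑' h, c h (h⁻¹ * g) * ev (Φ S) h * ev (Φ T) (h⁻¹ * g)
    rw [← rep_apply hΛ, ← e1 (Λ _ _), ← e3, e2, e2, map_mul]

end Pool.Agent.Results.MP_2a83f9_an.GroupAlgebras
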